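import Pool.Agent.H309.DF.Stm

/-!
# DF2: sine series with summable coefficients (helper122 for helper309)
-/

set_option autoImplicit false

open Set Filter Topology MeasureTheory

namespace Pool.Agent.H122.DF

open Pool.Agent.H309.DF

/-- the odd function attached to `g`, on `[-2 a, 2 a]` -/
noncomputable def od (a : ℝ) (g : ℝ → ℝ) (z : ℝ) : ℂ :=
  if 0 ≤ z then (g (z - a) : ℂ) else -(g (-z - a) : ℂ)

theorem od_pos {a : ℝ} {g : ℝ → ℝ} {z : ℝ} (hz : 0 ≤ z) : od a g z = (g (z - a) : ℂ) := if_pos hz

theorem od_neg {a : ℝ} {g : ℝ → ℝ} (hg : g (-a) = 0) {z : ℝ} (hz : z ≤ 0) :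
    od a g z = -(g (-z - a) : ℂ) := by
  rcases hz.lt_or_eq with h | h
  · exact if_neg (not_le.2 h)
  · rw [h, od_pos le_rfl, neg_zero, zero_sub, hg]
    simp

theorem od_cont {a : ℝ} {g : ℝ → ℝ} (ha : 0 < a) (hg : ContinuousOn g (Icc (-a) a))
    (hg0 : g (-a) = 0) : ContinuousOn (od a g) (Icc (-(2 * a)) (2 * a)) := by
  have h1 : Icc (-(2 * a)) (2 * a) = Icc (-(2 * a)) 0 ∪ Icc 0 (2 * a) :=
    (Icc_union_Icc_eq_Icc (by linarith) (by linarith)).symm
  rw [h1]
  refine ContinuousOn.union_of_isClosed ?_ ?_ isClosed_Icc isClosed_Icc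
  · refine ContinuousOn.congr (f := fun z => -(g (-z - a) : ℂ)) ?_ fun z hz => od_neg hg0 hz.2
    refine ContinuousOn.neg (Complex.continuous_ofReal.comp_continuousOn ?_)
    refine hg.comp (by fun_prop) fun z hz => ⟨by linarith [hz.2], by linarith [hz.1]⟩
  · refine ContinuousOn.congr (f := fun z => (g (z - a) : ℂ)) ?_ fun z hz => od_pos hz.1
    refine Complex.continuous_ofReal.comp_continuousOn ?_
    refine hg.comp (by fun_prop) fun z hz => ⟨by linarith [hz.1], by linarith [hz.2]⟩

/-- the frequencies, with sign -/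
noncomputable def th (a : ℝ) (n : ℤ) : ℝ := Real.pi * n / (2 * a)

/-- the sine coefficients, with sign -/
noncomputable def bb (a : ℝ) (g : ℝ → ℝ) (n : ℤ) : ℝ :=
  (1 / a) * ∫ y in (-a)..a, g y * Real.sin (th a n * (y + a))

theorem bb_succ (a : ℝ) (g : ℝ → ℝ) (m : ℕ) : bb a g ((m + 1 : ℕ) : ℤ) = co a g m := by
  unfold bb co sn
  have : th a ((m + 1 : ℕ) : ℤ) = mu a m := by
    unfold th mu
    push_cast
    ring
  rw [this]

theorem bb_neg (a : ℝ) (g : ℝ → ℝ) (n : ℤ) : bb a g (-n) = -bb a g n := by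
  unfold bb
  have : ∀ y, g y * Real.sin (th a (-n) * (y + a)) = -(g y * Real.sin (th a n * (y + a))) := by
    intro y
    have h1 : th a (-n) * (y + a) = -(th a n * (y + a)) := by
      unfold th
      push_cast
      ring
    rw [h1, Real.sin_neg]
    ring
  simp only [this, intervalIntegral.integral_neg]
  ring

theorem bb_zero (a : ℝ) (g : ℝ → ℝ) : bb a g 0 = 0 := by
  unfold bb th
  simp

theorem coef {a : ℝ} {g : ℝ → ℝ} (ha : 0 < a) (hT : Fact (0 < 4 * a))
    (hg : ContinuousOn g (Icc (-a) a)) (hg0 : g (-a) = 0) (n : ℤ) :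
    fourierCoeff (AddCircle.liftIco (4 * a) (-(2 * a)) (od a g)) n =
      -(Complex.I / 2) * (bb a g n : ℂ) := by
  rw [fourierCoeff_liftIco_eq, fourierCoeffOn_eq_integral]
  have hlen : -(2 * a) + 4 * a - -(2 * a) = 4 * a := by ring
  have hend : -(2 * a) + 4 * a = 2 * a := by ring
  have hint : ∀ x : ℝ, (fourier (-n) : AddCircle (-(2 * a) + 4 * a - -(2 * a)) → ℂ) ↑x • od a g x =
      Complex.exp (-(th a n * x : ℝ) * Complex.I) * od a g x := by
    intro x
    rw [smul_eq_mul]
    refine congrArg (· * od a g x) ?_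
    rw [fourier_coe_apply, hlen]
    refine congrArg Complex.exp ?_
    have hac : (a : ℂ) ≠ 0 := by exact_mod_cast ha.ne'
    unfold th
    push_cast
    field_simp
    ring
  simp only [hint]
  rw [hlen, hend]
  have hod := od_cont ha hg hg0
  have hE : Continuous fun x : ℝ => Complex.exp (-(th a n * x : ℝ) * Complex.I) := by fun_prop
  have hEo : ContinuousOn (fun x : ℝ => Complex.exp (-(th a n * x : ℝ) * Complex.I) * od a g x)
      (Icc (-(2 * a)) (2 * a)) := hE.continuousOn.mul hod
  have i1 : IntervalIntegrable (fun x : ℝ => Complex.exp (-(th a n * x : ℝ) * Complex.I) *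
      od a g x) volume (-(2 * a)) 0 :=
    (hEo.mono (Icc_subset_Icc_right (by linarith))).intervalIntegrable_of_Icc (by linarith)
  have i2 : IntervalIntegrable (fun x : ℝ => Complex.exp (-(th a n * x : ℝ) * Complex.I) *
      od a g x) volume 0 (2 * a) :=
    (hEo.mono (Icc_subset_Icc_left (by linarith))).intervalIntegrable_of_Icc (by linarith)
  rw [← intervalIntegral.integral_add_adjacent_intervals i1 i2]
  -- the first half
  have hgc : ContinuousOn (fun u : ℝ => (g (u - a) : ℂ)) (Icc 0 (2 * a)) := by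
    refine Complex.continuous_ofReal.comp_continuousOn ?_
    exact hg.comp (by fun_prop) fun z hz => ⟨by linarith [hz.1], by linarith [hz.2]⟩
  have e1 : ∫ x in (-(2 * a))..0, Complex.exp (-(th a n * x : ℝ) * Complex.I) * od a g x =
      ∫ u in (0 : ℝ)..(2 * a), -(Complex.exp ((th a n * u : ℝ) * Complex.I) * (g (u - a) : ℂ)) := by
    have h1 := intervalIntegral.integral_comp_neg (a := -(2 * a)) (b := 0)
      (fun u : ℝ => -(Complex.exp ((th a n * u : ℝ) * Complex.I) * (g (u - a) : ℂ)))
    rw [neg_zero, neg_neg] at h1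
    rw [← h1]
    refine intervalIntegral.integral_congr fun x hx => ?_
    rw [uIcc_of_le (by linarith)] at hx
    show Complex.exp (-(th a n * x : ℝ) * Complex.I) * od a g x =
      -(Complex.exp ((th a n * -x : ℝ) * Complex.I) * (g (-x - a) : ℂ))
    rw [od_neg hg0 hx.2]
    have h2 : ((th a n * -x : ℝ) : ℂ) = -((th a n * x : ℝ) : ℂ) := by push_cast; ring
    rw [h2]
    ring
  have e2 : ∫ x in (0 : ℝ)..(2 * a), Complex.exp (-(th a n * x : ℝ) * Complex.I) * od a g x =
      ∫ u in (0 : ℝ)..(2 * a), Complex.exp (-(th a n * u : ℝ) * Complex.I) * (g (u - a) : ℂ) := by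
    refine intervalIntegral.integral_congr fun x hx => ?_
    rw [uIcc_of_le (by linarith)] at hx
    show Complex.exp (-(th a n * x : ℝ) * Complex.I) * od a g x = _
    rw [od_pos hx.1]
  rw [e1, e2]
  have hE' : Continuous fun x : ℝ => Complex.exp ((th a n * x : ℝ) * Complex.I) := by fun_prop
  have j1 : IntervalIntegrable (fun u : ℝ => -(Complex.exp ((th a n * u : ℝ) * Complex.I) *
      (g (u - a) : ℂ))) volume 0 (2 * a) :=
    ((hE'.continuousOn.mul hgc).neg).intervalIntegrable_of_Icc (by linarith)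
  have j2 : IntervalIntegrable (fun u : ℝ => Complex.exp (-(th a n * u : ℝ) * Complex.I) *
      (g (u - a) : ℂ)) volume 0 (2 * a) :=
    (hE.continuousOn.mul hgc).intervalIntegrable_of_Icc (by linarith)
  rw [← intervalIntegral.integral_add j1 j2]
  have e3 : ∫ u in (0 : ℝ)..(2 * a), (-(Complex.exp ((th a n * u : ℝ) * Complex.I) *
      (g (u - a) : ℂ)) + Complex.exp (-(th a n * u : ℝ) * Complex.I) * (g (u - a) : ℂ)) =
      ∫ y in (-a)..a, -2 * Complex.I * ((g y * Real.sin (th a n * (y + a)) : ℝ) : ℂ) := by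
    have h1 := intervalIntegral.integral_comp_add_right (a := -a) (b := a)
      (fun u : ℝ => -(Complex.exp ((th a n * u : ℝ) * Complex.I) * (g (u - a) : ℂ)) +
        Complex.exp (-(th a n * u : ℝ) * Complex.I) * (g (u - a) : ℂ)) a
    rw [neg_add_cancel, ← two_mul] at h1
    rw [← h1]
    refine intervalIntegral.integral_congr fun y _ => ?_
    show -(Complex.exp ((th a n * (y + a) : ℝ) * Complex.I) * (g (y + a - a) : ℂ)) +
        Complex.exp (-(th a n * (y + a) : ℝ) * Complex.I) * (g (y + a - a) : ℂ) = _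
    rw [add_sub_cancel_right]
    push_cast
    rw [Complex.sin]
    have hI := Complex.I_mul_I
    linear_combination (((g y : ℝ) : ℂ) * (Complex.exp (-(th a n * (y + a)) * Complex.I) -
      Complex.exp ((th a n * (y + a)) * Complex.I))) * hI
  rw [e3, intervalIntegral.integral_const_mul, intervalIntegral.integral_ofReal]
  unfold bb
  have hac : (a : ℂ) ≠ 0 := by exact_mod_cast ha.ne'
  rw [Complex.real_smul]
  push_cast
  field_simp
  ring

theorem tCoExpand : Pool.Agent.H309.DF.CoExpand := by
  intro a ha g hg hga hga' hsum y hy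
  have hT : Fact (0 < 4 * a) := ⟨by linarith⟩
  have hend : -(2 * a) + 4 * a = 2 * a := by ring
  have hcont : Continuous (AddCircle.liftIco (4 * a) (-(2 * a)) (od a g)) := by
    apply AddCircle.liftIco_continuous
    · rw [hend, od_neg hga' (by linarith), od_pos (by linarith : (0 : ℝ) ≤ 2 * a)]
      rw [show -(-(2 * a)) - a = a by ring, show 2 * a - a = a by ring, hga]
      simp
    · rw [hend]
      exact od_cont ha hg hga'
  have hcoef := coef ha hT hg hga'
  -- summability
  have hs0 : Summable fun n : ℕ => ‖-(Complex.I / 2) * (bb a g (n : ℤ) : ℂ)‖ := by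
    rw [← summable_nat_add_iff 1]
    refine (hsum.mul_left (1 / 2)).congr fun m => ?_
    rw [bb_succ, norm_mul, norm_neg, norm_div, Complex.norm_I, Complex.norm_real, Complex.norm_ofNat,
      Real.norm_eq_abs]
  have hs1 : Summable (fourierCoeff (AddCircle.liftIco (4 * a) (-(2 * a)) (od a g))) := by
    refine Summable.of_nat_of_neg ?_ ?_
    · refine Summable.of_norm (hs0.congr fun n => ?_)
      rw [hcoef]
    · refine Summable.of_norm (hs0.congr fun n => ?_)
      rw [hcoef, bb_neg, Complex.ofReal_neg, mul_neg, norm_neg]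
  rcases hy.2.lt_or_eq with hlt | heq
  · have hz : y + a ∈ Ico (-(2 * a)) (-(2 * a) + 4 * a) := by
      constructor
      · linarith [hy.1]
      · linarith
    have h1 := has_pointwise_sum_fourier_series_of_summable
      (f := ⟨AddCircle.liftIco (4 * a) (-(2 * a)) (od a g), hcont⟩) hs1 ((y + a : ℝ) : AddCircle (4 * a))
    have h2 : HasSum (fun i : ℤ => -(Complex.I / 2) * (bb a g i : ℂ) *
        Complex.exp ((th a i * (y + a) : ℝ) * Complex.I)) ((g y : ℝ) : ℂ) := by
      have e1 : (⟨AddCircle.liftIco (4 * a) (-(2 * a)) (od a g), hcont⟩ : C(AddCircle (4 * a), ℂ))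
          ((y + a : ℝ) : AddCircle (4 * a)) = ((g y : ℝ) : ℂ) := by
        show AddCircle.liftIco (4 * a) (-(2 * a)) (od a g) ((y + a : ℝ) : AddCircle (4 * a)) = _
        rw [AddCircle.liftIco_coe_apply hz, od_pos (by linarith [hy.1]), add_sub_cancel_right]
      rw [e1] at h1
      refine h1.congr_fun fun i => ?_
      show _ = fourierCoeff (AddCircle.liftIco (4 * a) (-(2 * a)) (od a g)) i • _
      rw [hcoef, smul_eq_mul, fourier_coe_apply]
      refine congrArg (-(Complex.I / 2) * (bb a g i : ℂ) * ·) (congrArg Complex.exp ?_)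
      have hac : (a : ℂ) ≠ 0 := by exact_mod_cast ha.ne'
      unfold th
      push_cast
      field_simp
      ring
    have h3 := h2.nat_add_neg
    rw [bb_zero] at h3
    simp only [Complex.ofReal_zero, mul_zero, zero_mul, add_zero] at h3
    have h4 : HasSum (fun n : ℕ => bb a g (n : ℤ) * Real.sin (th a (n : ℤ) * (y + a))) (g y) := by
      rw [← Complex.hasSum_ofReal]
      refine h3.congr_fun fun n => ?_
      have e2 : ((th a (-(n : ℤ)) * (y + a) : ℝ) : ℂ) = -((th a (n : ℤ) * (y + a) : ℝ) : ℂ) := by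
        unfold th
        push_cast
        ring
      rw [e2, bb_neg]
      rw [Complex.ofReal_mul, Complex.ofReal_sin, Complex.sin, Complex.ofReal_neg]
      ring
    have h5 := (hasSum_nat_add_iff' 1).2 h4
    rw [Finset.sum_range_one] at h5
    simp only [Nat.cast_zero, bb_zero, zero_mul, sub_zero] at h5
    refine h5.congr_fun fun m => ?_
    rw [bb_succ]
    unfold sn
    have : th a ((m + 1 : ℕ) : ℤ) = mu a m := by
      unfold th mu
      push_cast
      ring
    rw [this]
  · subst heq
    have h1 : ∀ m, co y g m * sn y m y = 0 := by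
      intro m
      have h2 : mu y m * (y + y) = ((m + 1 : ℕ) : ℝ) * Real.pi := by
        unfold mu
        push_cast
        field_simp
        ring
      unfold sn
      rw [h2, Real.sin_nat_mul_pi, mul_zero]
    simp only [h1, hga]
    exact hasSum_zero

end Pool.Agent.H122.DF
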